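import Pool.Agent.Helper19.TGX.Goals

/-!
# Packet TGX-RHO (MP_a41896_nt)
-/

set_option autoImplicit false

open Polynomial

namespace Pool.Agent.Helper79.TGX.RHO

open Pool.Agent.Helper19.TGX (wr)

theorem coeff_xd {k : Type} [Field k] (p : k[X]) (n : ℕ) :
    (X * derivative p).coeff n = n * p.coeff n := by
  cases n with
  | zero => simp
  | succ n =>
    rw [coeff_X_mul, coeff_derivative]
    push_cast
    ring

theorem deg_xd {k : Type} [Field k] (p : k[X]) : (X * derivative p).natDegree ≤ p.natDegree := by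
  rw [natDegree_le_iff_coeff_eq_zero]
  intro N hN
  rw [coeff_xd, coeff_eq_zero_of_natDegree_lt hN, mul_zero]

/-- the polynomial case -/
theorem poly {Ω : Type} [Field Ω] [CharZero Ω] (β U : Polynomial Ω) (a : Ω) (hβ : β.natDegree = 3)
    (hU : U ≠ 0) (h : 2 * derivative U * β + U * derivative β = C a) : False := by
  have hβ0 : β ≠ 0 := by
    rintro rfl
    simp at hβ
  have h1 : 2 * ((X * derivative U) * β) + U * (X * derivative β) = X * C a := by
    rw [← h]
    ring
  have h2 := congrArg (fun p : Polynomial Ω => p.coeff (U.natDegree + 3)) h1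
  simp only [coeff_add] at h2
  have e1 : (2 * ((X * derivative U) * β)).coeff (U.natDegree + 3) =
      2 * ((U.natDegree : Ω) * U.leadingCoeff * β.leadingCoeff) := by
    have h3 : (2 : Polynomial Ω) = C 2 := rfl
    rw [h3, coeff_C_mul, coeff_mul_add_eq_of_natDegree_le (deg_xd U) hβ.le, coeff_xd]
    rw [leadingCoeff, leadingCoeff, hβ]
  have e2 : (U * (X * derivative β)).coeff (U.natDegree + 3) =
      U.leadingCoeff * (3 * β.leadingCoeff) := by
    rw [coeff_mul_add_eq_of_natDegree_le le_rfl ((deg_xd β).trans hβ.le), coeff_xd]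
    rw [leadingCoeff, leadingCoeff, hβ]
    push_cast
    rfl
  have e3 : (X * C a : Polynomial Ω).coeff (U.natDegree + 3) = 0 := by
    rw [mul_comm, coeff_C_mul, coeff_X_of_ne_one (by omega), mul_zero]
  rw [e1, e2, e3] at h2
  have h4 : (2 * (U.natDegree : Ω) + 3) * (U.leadingCoeff * β.leadingCoeff) = 0 := by
    linear_combination h2
  have h5 : (2 * (U.natDegree : Ω) + 3) ≠ 0 := by
    have : ((2 * U.natDegree + 3 : ℕ) : Ω) ≠ 0 := Nat.cast_ne_zero.2 (by omega)
    push_cast at this
    exact this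
  rcases mul_eq_zero.1 h4 with h6 | h6
  · exact h5 h6
  · rcases mul_eq_zero.1 h6 with h7 | h7
    · exact hU (leadingCoeff_eq_zero.1 h7)
    · exact hβ0 (leadingCoeff_eq_zero.1 h7)

/-- the denominator has no root -/
theorem noroot {Ω : Type} [Field Ω] [CharZero Ω] (β U V : Polynomial Ω) (a : Ω) (hs : Squarefree β)
    (hV : V ≠ 0) (hc : IsCoprime U V)
    (h : 2 * wr U V * β + U * V * derivative β = C a * V ^ 2) (r : Ω) (hr : V.IsRoot r) :
    False := by
  obtain ⟨V₁, hV1, hnd⟩ := exists_eq_pow_rootMultiplicity_mul_and_not_dvd V hV r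
  have hm : 0 < rootMultiplicity r V := (rootMultiplicity_pos hV).2 hr
  obtain ⟨k, hk⟩ : ∃ k, rootMultiplicity r V = k + 1 := ⟨rootMultiplicity r V - 1, by omega⟩
  rw [hk] at hV1
  set t : Polynomial Ω := X - C r with ht
  have ht0 : t ≠ 0 := X_sub_C_ne_zero r
  have htr : eval r t = 0 := by simp [ht]
  have hdt : derivative t = 1 := by simp [ht]
  have hUr : eval r U ≠ 0 := by
    intro h0
    obtain ⟨p, q, hpq⟩ := hc
    have h1 := congrArg (eval r) hpq
    rw [eval_add, eval_mul, eval_mul, h0, (show eval r V = 0 from hr), eval_one] at h1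
    simp at h1
  have hVr : eval r V₁ ≠ 0 := by
    intro h0
    exact hnd (dvd_iff_isRoot.2 h0)
  have hdV : derivative V = t ^ k * (((k : Polynomial Ω) + 1) * V₁ + t * derivative V₁) := by
    rw [hV1, derivative_mul, derivative_pow, hdt]
    simp only [Nat.cast_add, Nat.cast_one, map_add, map_natCast, map_one, Nat.add_sub_cancel]
    ring
  have hV1' : V = t ^ k * (t * V₁) := by
    rw [hV1, pow_succ]
    ring
  have h1 : t ^ k * (2 * (derivative U * (t * V₁) - U * (((k : Polynomial Ω) + 1) * V₁ +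
      t * derivative V₁)) * β + U * (t * V₁) * derivative β) =
      t ^ k * (C a * (t ^ (k + 2) * V₁ ^ 2)) := by
    have h2 := h
    unfold wr at h2
    rw [hdV] at h2
    rw [hV1'] at h2
    linear_combination h2
  have h2 := mul_left_cancel₀ (pow_ne_zero k ht0) h1
  have h3 := congrArg (eval r) h2
  simp only [eval_add, eval_mul, eval_sub, eval_pow, htr, eval_one, eval_natCast, eval_ofNat,
    eval_C] at h3
  have hk1 : (k + 1 : Ω) ≠ 0 := Nat.cast_add_one_ne_zero k
  have h4 : (k + 1 : Ω) * (eval r U * (eval r V₁ * eval r β)) = 0 := by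
    have h5 : (0 : Ω) ^ (k + 2) = 0 := zero_pow (by omega)
    rw [h5] at h3
    linear_combination (-1 / 2 : Ω) * h3
  have hβr : eval r β = 0 := by
    rcases mul_eq_zero.1 h4 with h | h
    · exact absurd h hk1
    · rcases mul_eq_zero.1 h with h | h
      · exact absurd h hUr
      · rcases mul_eq_zero.1 h with h | h
        · exact absurd h hVr
        · exact h
  obtain ⟨β₁, hβ1⟩ : t ∣ β := dvd_iff_isRoot.2 hβr
  have hb1 : eval r β₁ ≠ 0 := by
    intro h0
    obtain ⟨γ, hγ⟩ : t ∣ β₁ := dvd_iff_isRoot.2 h0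
    have h5 : t * t ∣ β := ⟨γ, by rw [hβ1, hγ]; ring⟩
    have h6 := hs t h5
    have h7 := natDegree_eq_zero_of_isUnit h6
    rw [ht, natDegree_X_sub_C] at h7
    exact one_ne_zero h7
  have hdb : derivative β = β₁ + t * derivative β₁ := by
    rw [hβ1, derivative_mul, hdt, one_mul]
  rw [hdb] at h2
  rw [hβ1] at h2
  have h5 : t * (2 * (derivative U * (t * V₁) - U * (((k : Polynomial Ω) + 1) * V₁ +
      t * derivative V₁)) * β₁ + U * V₁ * (β₁ + t * derivative β₁)) =
      t * (C a * (t ^ (k + 1) * V₁ ^ 2)) := by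
    linear_combination h2
  have h6 := congrArg (eval r) (mul_left_cancel₀ ht0 h5)
  simp only [eval_add, eval_mul, eval_sub, eval_pow, htr, eval_one, eval_natCast, eval_ofNat,
    eval_C] at h6
  have h7 : (2 * (k : Ω) + 1) * (eval r U * (eval r V₁ * eval r β₁)) = 0 := by
    have h8 : (0 : Ω) ^ (k + 1) = 0 := zero_pow (by omega)
    rw [h8] at h6
    linear_combination (-1 : Ω) * h6
  have h8 : (2 * (k : Ω) + 1) ≠ 0 := by
    have : ((2 * k + 1 : ℕ) : Ω) ≠ 0 := Nat.cast_ne_zero.2 (by omega)
    push_cast at this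
    exact this
  exact (mul_ne_zero h8 (mul_ne_zero hUr (mul_ne_zero hVr hb1))) h7

theorem t : Pool.Agent.Helper19.TGX.RHO := by
  intro Ω _ _ _ β N M a hβ hs hM h
  by_contra hN
  classical
  let _ : GCDMonoid (Polynomial Ω) := EuclideanDomain.gcdMonoid (Polynomial Ω)
  obtain ⟨U, V, hNU, hMV, hu⟩ := extract_gcd N M
  set d := gcd N M with hd
  have hd0 : d ≠ 0 := by
    intro h0
    rw [h0, zero_mul] at hMV
    exact hM hMV
  have hc : IsCoprime U V := (gcd_isUnit_iff U V).1 hu
  have hU : U ≠ 0 := by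
    rintro rfl
    rw [mul_zero] at hNU
    exact hN hNU
  have hV : V ≠ 0 := by
    rintro rfl
    rw [mul_zero] at hMV
    exact hM hMV
  have h1 : 2 * wr U V * β + U * V * derivative β = C a * V ^ 2 := by
    apply mul_left_cancel₀ (pow_ne_zero 2 hd0)
    unfold wr at h ⊢
    rw [hNU, hMV, derivative_mul, derivative_mul] at h
    linear_combination h
  by_cases hdeg : V.degree = 0
  · obtain ⟨c, hc⟩ : ∃ c, V = C c := ⟨V.coeff 0, eq_C_of_degree_eq_zero hdeg⟩
    subst hc
    have hc0 : c ≠ 0 := by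
      rintro rfl
      simp at hV
    refine poly β U (a * c) hβ hU ?_
    have hC : (C c : Polynomial Ω) ≠ 0 := hV
    apply mul_left_cancel₀ hC
    unfold wr at h1
    rw [derivative_C] at h1
    rw [C_mul]
    linear_combination h1
  · obtain ⟨r, hr⟩ := IsAlgClosed.exists_root V hdeg
    exact noroot β U V a hs hV hc h1 r hr

end Pool.Agent.Helper79.TGX.RHO
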